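import Mathlib.Order.Lattice.Nat
import Mathlib.Data.Set.Card
import Mathlib.Combinatorics.SimpleGraph.Basic

/-!
Definitions for the two-colour Ramsey numbers of degree-monotone paths.
-/

namespace Pool.Agent.MP_a6acde_co

/-- The degree of the vertex `x` in the graph `G`: the number of its neighbours. -/
noncomputable def deg {V : Type} (G : SimpleGraph V) (x : V) : ℕ := (G.neighborSet x).ncard

/-- `G` has a degree-monotone path of order `m`: distinct vertices `v 0, ..., v (m-1)`,
consecutive ones adjacent, with non-decreasing degrees in `G`. -/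
def HasDegMonoPath {V : Type} (G : SimpleGraph V) (m : ℕ) : Prop :=
  ∃ v : Fin m → V, Function.Injective v ∧
    ∀ i j : Fin m, (j : ℕ) = i + 1 → G.Adj (v i) (v j) ∧ deg G (v i) ≤ deg G (v j)

/-- The spanning subgraph of `K_n` formed by the edges of colour `j` in the colouring `c`. -/
def colourClass {n : ℕ} (c : Sym2 (Fin n) → Fin 2) (j : Fin 2) : SimpleGraph (Fin n) :=
  SimpleGraph.fromEdgeSet {e | c e = j}

/-- `M2 m` is the least `M` such that for every `n ≥ M` every 2-colouring of the edges of `K_n`
has a monochromatic degree-monotone path of order `m`. -/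
noncomputable def M2 (m : ℕ) : ℕ :=
  sInf {M : ℕ | ∀ n : ℕ, M ≤ n → ∀ c : Sym2 (Fin n) → Fin 2,
    ∃ j : Fin 2, HasDegMonoPath (colourClass c j) m}

end Pool.Agent.MP_a6acde_co
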