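import Mathlib.Logic.Equiv.PartialEquiv
import Mathlib.Tactic.ENatToNat
import Mathlib.Data.Int.ConditionallyCompleteOrder
import Mathlib.Data.Int.Star
import Mathlib.Algebra.Order.Ring.Star
import Mathlib.Tactic.Bound
import Mathlib.Combinatorics.SimpleGraph.Finite
import Mathlib.RingTheory.WittVector.IsPoly
import Mathlib.Tactic.Polynomial.Basic
import Mathlib.Tactic.ReduceModChar
import Pool.Agent.MP_a6acde_co.Defs

-- ======== part 0: formerly Pool.Agent.MP_a6acde_co.Upper
section MrgPart0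

/-!
The upper bound `M2 (k+1) ≤ k^2+1` (known; Erdos-Szekeres labelling).
-/

namespace Pool.Agent.MP_a6acde_co

open Finset

lemma deg_compl {V : Type} [Fintype V] (G : SimpleGraph V) (x : V) :
    deg Gᶜ x + deg G x + 1 = Fintype.card V := by
  classical
  have h1 : deg G x = G.degree x := by
    simp [deg, ← SimpleGraph.card_neighborSet_eq_degree, Set.ncard_eq_toFinset_card']
  have h2 : deg Gᶜ x = Gᶜ.degree x := by
    simp [deg, ← SimpleGraph.card_neighborSet_eq_degree, Set.ncard_eq_toFinset_card']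
  have h3 := SimpleGraph.degree_compl G x
  have h4 := SimpleGraph.degree_lt_card_verts (G := G) x
  omega

/-- increasing path with `l` edges ending at `v` -/
def IncPath {V : Type} (key : V → ℕ) (G : SimpleGraph V) (v : V) (l : ℕ) : Prop :=
  ∃ f : ℕ → V, f l = v ∧ ∀ i < l, key (f i) < key (f (i + 1)) ∧ G.Adj (f i) (f (i + 1))

lemma IncPath.zero {V : Type} (key : V → ℕ) (G : SimpleGraph V) (v : V) : IncPath key G v 0 :=
  ⟨fun _ => v, rfl, fun i hi => absurd hi (Nat.not_lt_zero i)⟩

lemma IncPath.succ {V : Type} {key : V → ℕ} {G : SimpleGraph V} {u v : V} {l : ℕ}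
    (h : IncPath key G u l) (hk : key u < key v) (ha : G.Adj u v) : IncPath key G v (l + 1) := by
  obtain ⟨f, hf, hs⟩ := h
  refine ⟨fun i => if i ≤ l then f i else v, by simp, fun i hi => ?_⟩
  rcases Nat.lt_succ_iff_lt_or_eq.mp hi with h1 | h1
  · have h2 : i ≤ l := h1.le
    have h3 : i + 1 ≤ l := h1
    simpa [h2, h3] using hs i h1
  · subst h1
    simp [hf, hk, ha]

lemma exists_incPath {V : Type} [Fintype V] (key : V → ℕ) (hkey : Function.Injective key)
    (G : SimpleGraph V) (k : ℕ) (hn : k * k < Fintype.card V) :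
    (∃ v, IncPath key G v k) ∨ (∃ v, IncPath key Gᶜ v k) := by
  classical
  by_contra hcon
  push Not at hcon
  obtain ⟨h1, h2⟩ := hcon
  have hk : 0 < k := by
    rcases Nat.eq_zero_or_pos k with h | h
    · subst h
      have : Nonempty V := Fintype.card_pos_iff.mp (by omega)
      exact absurd (IncPath.zero key G (Classical.arbitrary V)) (h1 _)
    · exact h
  have main : ∀ H : SimpleGraph V, (∀ v, ¬ IncPath key H v k) → ∀ u v, key u < key v → H.Adj u v →
      Nat.findGreatest (IncPath key H u) (k - 1) < Nat.findGreatest (IncPath key H v) (k - 1) := by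
    intro H hH u v huv ha
    have hu : IncPath key H u (Nat.findGreatest (IncPath key H u) (k - 1)) :=
      Nat.findGreatest_spec (Nat.zero_le _) (IncPath.zero key H u)
    have hv := hu.succ huv ha
    have hle : Nat.findGreatest (IncPath key H u) (k - 1) ≤ k - 1 := Nat.findGreatest_le _
    have hne : Nat.findGreatest (IncPath key H u) (k - 1) + 1 ≠ k := by
      intro h
      rw [h] at hv
      exact hH v hv
    exact Nat.le_findGreatest (by omega) hv
  let φ : V → Fin k × Fin k := fun v =>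
    (⟨Nat.findGreatest (IncPath key G v) (k - 1),
        lt_of_le_of_lt (Nat.findGreatest_le _) (by omega)⟩,
      ⟨Nat.findGreatest (IncPath key Gᶜ v) (k - 1),
        lt_of_le_of_lt (Nat.findGreatest_le _) (by omega)⟩)
  have key2 : ∀ u v, key u < key v → φ u ≠ φ v := by
    intro u v huv he
    have hne : u ≠ v := fun h => by simp [h] at huv
    have e1 : Nat.findGreatest (IncPath key G u) (k - 1)
        = Nat.findGreatest (IncPath key G v) (k - 1) := congrArg (fun p => (p.1 : ℕ)) he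
    have e2 : Nat.findGreatest (IncPath key Gᶜ u) (k - 1)
        = Nat.findGreatest (IncPath key Gᶜ v) (k - 1) := congrArg (fun p => (p.2 : ℕ)) he
    by_cases ha : G.Adj u v
    · have := main G h1 u v huv ha
      omega
    · have := main Gᶜ h2 u v huv ((SimpleGraph.compl_adj G u v).mpr ⟨hne, ha⟩)
      omega
  have hinj : Function.Injective φ := by
    intro u v he
    by_contra hne
    rcases lt_trichotomy (key u) (key v) with h | h | h
    · exact key2 u v h he
    · exact hne (hkey h)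
    · exact key2 v u h he.symm
  have := Fintype.card_le_of_injective φ hinj
  simp at this
  omega

lemma strictMono_of_step {k : ℕ} (g : ℕ → ℕ) (h : ∀ i < k, g i < g (i + 1)) :
    ∀ i j, i < j → j ≤ k → g i < g j := by
  intro i j hij hj
  induction j with
  | zero => omega
  | succ j ih =>
    rcases Nat.lt_succ_iff_lt_or_eq.mp hij with h1 | h1
    · exact (ih h1 (by omega)).trans (h j (by omega))
    · subst h1
      exact h i (by omega)

lemma upper_graph {n : ℕ} (G : SimpleGraph (Fin n)) (k : ℕ) (hn : k * k < n) :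
    HasDegMonoPath G (k + 1) ∨ HasDegMonoPath Gᶜ (k + 1) := by
  let key : Fin n → ℕ := fun v => deg G v * n + v
  have hmono : ∀ u v, key u < key v → deg G u ≤ deg G v := by
    intro u v h
    by_contra hc
    have h1 : deg G v + 1 ≤ deg G u := by omega
    have h2 : (deg G v + 1) * n ≤ deg G u * n := Nat.mul_le_mul_right _ h1
    have h3 := v.isLt
    simp only [key] at h
    nlinarith
  have hkey : Function.Injective key := by
    intro u v h
    have h1 := congrArg (· % n) h
    simp only [key, Nat.mul_add_mod_of_lt u.isLt, Nat.mul_add_mod_of_lt v.isLt] at h1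
    exact Fin.ext h1
  rcases exists_incPath key hkey G k (by simpa using hn) with ⟨v, f, -, hf⟩ | ⟨v, f, -, hf⟩
  · left
    have hs := strictMono_of_step (fun i => key (f i)) (fun i hi => (hf i hi).1)
    refine ⟨fun i => f i, fun i j hij => ?_, fun i j hij => ?_⟩
    · have hij' : f i = f j := hij
      have hi := i.isLt
      have hj := j.isLt
      rcases lt_trichotomy (i : ℕ) j with h | h | h
      · have := hs i j h (by omega)
        simp [hij'] at this
      · exact Fin.ext h
      · have := hs j i h (by omega)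
        simp [hij'] at this
    · have hj := j.isLt
      have := hf i (by omega)
      simp only [hij]
      exact ⟨this.2, hmono _ _ this.1⟩
  · right
    have hs := strictMono_of_step (fun i => key (f i)) (fun i hi => (hf i hi).1)
    refine ⟨fun i => f (k - i), fun i j hij => ?_, fun i j hij => ?_⟩
    · have hij' : f (k - i) = f (k - j) := hij
      have hi := i.isLt
      have hj := j.isLt
      rcases lt_trichotomy (i : ℕ) j with h | h | h
      · have := hs (k - j) (k - i) (by omega) (by omega)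
        simp [hij'] at this
      · exact Fin.ext h
      · have := hs (k - i) (k - j) (by omega) (by omega)
        simp [hij'] at this
    · have hj := j.isLt
      have h1 := hf (k - j) (by omega)
      have h2 : k - j + 1 = k - i := by omega
      rw [h2] at h1
      refine ⟨h1.2.symm, ?_⟩
      have h3 := hmono _ _ h1.1
      have h4 := deg_compl G (f (k - i))
      have h5 := deg_compl G (f (k - j))
      show deg Gᶜ (f (k - i)) ≤ deg Gᶜ (f (k - j))
      omega

lemma colourClass_one {n : ℕ} (c : Sym2 (Fin n) → Fin 2) :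
    colourClass c 1 = (colourClass c 0)ᶜ := by
  ext u v
  simp only [colourClass, SimpleGraph.fromEdgeSet_adj, Set.mem_ofPred_eq, SimpleGraph.compl_adj]
  constructor
  · rintro ⟨h1, h2⟩
    refine ⟨h2, fun h => ?_⟩
    rw [h1] at h
    exact absurd h.1 (by decide)
  · rintro ⟨h1, h2⟩
    refine ⟨?_, h1⟩
    have h3 : c s(u, v) ≠ 0 := fun h => h2 ⟨h, h1⟩
    revert h3
    generalize c s(u, v) = x
    revert x
    decide

lemma upper (k n : ℕ) (hn : k ^ 2 + 1 ≤ n) (c : Sym2 (Fin n) → Fin 2) :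
    ∃ j : Fin 2, HasDegMonoPath (colourClass c j) (k + 1) := by
  rcases upper_graph (colourClass c 0) k (by nlinarith) with h | h
  · exact ⟨0, h⟩
  · exact ⟨1, by rwa [colourClass_one]⟩

end Pool.Agent.MP_a6acde_co

end MrgPart0

-- ======== part 1: formerly Pool.Agent.MP_a6acde_co.Lower
section MrgPart1

/-!
The lower bound: a graph on `k^2` vertices, `k = 6^j`, such that neither it nor its complement has
a degree-monotone path of order `k+1`.

A weighted block structure is a finite set `S` of blocks with symmetric weights `r` in `[0, L]`,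
with pairwise distinct weighted degrees and labels `α < K1`, `β < K2` such that along increasing
weighted degree a positive weight forces `α` to grow and a weight below `L` forces `β` to grow.
Each block is blown up to a clique on `L` vertices, and two blocks are joined by an `r`-regular
bipartite graph.
-/

namespace Pool.Agent.MP_a6acde_co

open Finset

/-- weighted block structure with block size `8 * u` -/
def Blk (u K1 K2 : ℕ) : Prop :=
  ∃ (S : Type) (_ : Fintype S) (_ : DecidableEq S) (r : S → S → ℕ) (α β : S → ℕ) (lo : ℕ),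
    Fintype.card S = K1 * K2 ∧ (∀ s t, r s t = r t s) ∧ (∀ s, r s s = 0) ∧
    (∀ s t, r s t ≤ 8 * u) ∧ (∀ s, α s < K1) ∧ (∀ s, β s < K2) ∧
    (∀ s t, ∑ x, r s x = ∑ x, r t x → s = t) ∧
    (∀ s t, ∑ x, r s x < ∑ x, r t x → (0 < r s t → α s < α t) ∧ (r s t < 8 * u → β s < β t)) ∧
    (∀ s, lo ≤ ∑ x, r s x ∧ ∑ x, r s x < lo + 2 * u * (K1 * K2))

lemma blk_base (u : ℕ) (hu : 0 < u) : Blk u 1 1 := by
  refine ⟨Unit, inferInstance, inferInstance, fun _ _ => 0, fun _ => 0, fun _ => 0, 0, ?_⟩
  simp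
  omega

/-- the finite certificate: weights -/
def RR : Fin 18 → Fin 18 → ℕ :=
  ![![0, 8, 0, 0, 0, 0, 8, 0, 8, 0, 0, 0, 0, 0, 0, 0, 8, 4],
    ![8, 0, 0, 0, 0, 0, 8, 0, 4, 0, 0, 0, 0, 0, 0, 8, 8, 2],
    ![0, 0, 0, 8, 0, 0, 8, 0, 8, 0, 0, 0, 0, 8, 0, 0, 0, 8],
    ![0, 0, 8, 0, 0, 0, 8, 0, 8, 0, 0, 0, 0, 0, 0, 8, 8, 2],
    ![0, 0, 0, 0, 0, 8, 8, 0, 8, 0, 0, 2, 8, 0, 8, 0, 0, 2],
    ![0, 0, 0, 0, 8, 0, 8, 0, 8, 0, 0, 0, 0, 0, 8, 2, 4, 8],
    ![8, 8, 8, 8, 8, 8, 0, 0, 0, 0, 0, 0, 0, 0, 0, 0, 0, 0],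
    ![0, 0, 0, 0, 0, 0, 0, 0, 8, 0, 0, 8, 5, 8, 8, 8, 0, 5],
    ![8, 4, 8, 8, 8, 8, 0, 8, 0, 0, 0, 0, 0, 0, 0, 0, 0, 0],
    ![0, 0, 0, 0, 0, 0, 0, 0, 0, 0, 0, 8, 8, 6, 8, 8, 8, 8],
    ![0, 0, 0, 0, 0, 0, 0, 0, 0, 0, 0, 8, 8, 8, 8, 8, 8, 8],
    ![0, 0, 0, 0, 2, 0, 0, 8, 0, 8, 8, 0, 0, 0, 8, 8, 8, 8],
    ![0, 0, 0, 0, 8, 0, 0, 5, 0, 8, 8, 0, 0, 0, 8, 8, 8, 7],
    ![0, 0, 8, 0, 0, 0, 0, 8, 0, 6, 8, 0, 0, 0, 8, 8, 8, 8],
    ![0, 0, 0, 0, 8, 8, 0, 8, 0, 8, 8, 8, 8, 8, 0, 0, 0, 0],
    ![0, 8, 0, 8, 0, 2, 0, 8, 0, 8, 8, 8, 8, 8, 0, 0, 0, 0],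
    ![8, 8, 0, 8, 0, 4, 0, 0, 0, 8, 8, 8, 8, 8, 0, 0, 0, 0],
    ![4, 2, 8, 2, 2, 8, 0, 5, 0, 8, 8, 8, 7, 8, 0, 0, 0, 0]]

/-- the finite certificate: first label -/
def AA : Fin 18 → ℕ := ![0, 1, 0, 1, 0, 1, 2, 0, 2, 0, 0, 1, 1, 1, 2, 2, 2, 2]

/-- the finite certificate: second label -/
def BB : Fin 18 → ℕ := ![0, 0, 1, 1, 2, 2, 0, 3, 1, 4, 5, 3, 4, 5, 2, 3, 4, 5]

lemma RR_symm : ∀ x y, RR x y = RR y x := by decide
lemma RR_self : ∀ x, RR x x = 0 := by decide
lemma RR_le : ∀ x y, RR x y ≤ 8 := by decide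
lemma AA_lt : ∀ x, AA x < 3 := by decide
lemma BB_lt : ∀ x, BB x < 6 := by decide
lemma RR_sum : ∀ x, ∑ y, RR x y = 36 + 2 * x.val := by decide
lemma RR_lab : ∀ x y, x < y → (0 < RR x y → AA x < AA y) ∧ (RR x y < 8 → BB x < BB y) := by
  decide

lemma lex_lt {a b p q K : ℕ} (hab : a < b) (hp : p < K) : a * K + p < b * K + q := by
  have : (a + 1) * K ≤ b * K := Nat.mul_le_mul_right _ hab
  nlinarith

lemma blk_step (u K1 K2 : ℕ) (h : Blk u K1 K2) : Blk u (3 * K1) (6 * K2) := by
  obtain ⟨S, iF, iD, r, α, β, lo, hc, hsym, hself, hle, hα, hβ, hinj, hlab, hwin⟩ := h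
  set c := K1 * K2 with hcdef
  let r' : Fin 18 × S → Fin 18 × S → ℕ := fun a b =>
    (if a.1 = b.1 then r a.2 b.2 else 0) + RR a.1 b.1 * u
  have hsum : ∀ a : Fin 18 × S,
      ∑ b, r' a b = (18 + a.1.val) * (2 * u * c) + ∑ t, r a.2 t := by
    rintro ⟨x, s⟩
    simp only [r', Fintype.sum_prod_type, Finset.sum_add_distrib]
    have e1 : ∑ y : Fin 18, ∑ t : S, (if x = y then r s t else 0) = ∑ t, r s t := by
      rw [Finset.sum_comm]
      simp
    have e2 : ∑ y : Fin 18, ∑ _t : S, RR x y * u = (18 + x.val) * (2 * u * c) := by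
      simp only [Finset.sum_const, Finset.card_univ, hc, smul_eq_mul]
      rw [← Finset.mul_sum, ← Finset.sum_mul, RR_sum]
      ring
    rw [e1, e2, add_comm]
  have hlt : ∀ a b : Fin 18 × S, a.1 < b.1 → ∑ z, r' a z < ∑ z, r' b z := by
    intro a b hab
    rw [hsum, hsum]
    have h1 := hwin a.2
    have h2 := hwin b.2
    have h3 : (18 + a.1.val + 1) * (2 * u * c) ≤ (18 + b.1.val) * (2 * u * c) :=
      Nat.mul_le_mul_right _ (by have : a.1.val < b.1.val := hab; omega)
    nlinarith [h1.2, h2.1]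
  refine ⟨Fin 18 × S, inferInstance, inferInstance, r',
    fun a => AA a.1 * K1 + α a.2, fun a => BB a.1 * K2 + β a.2, lo + 18 * (2 * u * c),
    ?_, ?_, ?_, ?_, ?_, ?_, ?_, ?_, ?_⟩
  · simp [hc, hcdef]
    ring
  · rintro ⟨x, s⟩ ⟨y, t⟩
    simp only [r', RR_symm x y, hsym s t, eq_comm]
  · rintro ⟨x, s⟩
    simp [r', RR_self, hself]
  · rintro ⟨x, s⟩ ⟨y, t⟩
    simp only [r']
    by_cases hxy : x = y
    · subst hxy
      simp [RR_self, hle]
    · simp only [hxy, if_false, zero_add]
      exact Nat.mul_le_mul_right _ (RR_le x y)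
  · rintro ⟨x, s⟩
    have := lex_lt (q := 0) (AA_lt x) (hα s)
    simpa using this
  · rintro ⟨x, s⟩
    have := lex_lt (q := 0) (BB_lt x) (hβ s)
    simpa using this
  · rintro ⟨x, s⟩ ⟨y, t⟩ he
    rcases lt_trichotomy x y with hxy | hxy | hxy
    · exact absurd he (hlt (x, s) (y, t) hxy).ne
    · subst hxy
      rw [hsum, hsum] at he
      have := hinj s t (by simpa using he)
      rw [this]
    · exact absurd he.symm (hlt (y, t) (x, s) hxy).ne
  · rintro ⟨x, s⟩ ⟨y, t⟩ hl
    rcases lt_trichotomy x y with hxy | hxy | hxy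
    · have h1 := RR_lab x y hxy
      simp only [r', hxy.ne, if_false, zero_add]
      refine ⟨fun h => lex_lt (h1.1 ?_) (hα s), fun h => lex_lt (h1.2 ?_) (hβ s)⟩
      · exact Nat.pos_of_mul_pos_right h
      · exact Nat.lt_of_mul_lt_mul_right h
    · subst hxy
      rw [hsum, hsum] at hl
      have h1 := hlab s t (by simpa using hl)
      simp only [r', if_true, RR_self, zero_mul, add_zero]
      exact ⟨fun h => Nat.add_lt_add_left (h1.1 h) _, fun h => Nat.add_lt_add_left (h1.2 h) _⟩
    · exact absurd hl (not_lt.mpr (hlt (y, t) (x, s) hxy).le)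
  · rintro ⟨x, s⟩
    rw [hsum]
    have h1 := hwin s
    have hx : x.val ≤ 17 := by have := x.isLt; omega
    have h3 : x.val * (2 * u * c) ≤ 17 * (2 * u * c) := Nat.mul_le_mul_right _ hx
    have h4 : 2 * u * (3 * K1 * (6 * K2)) = 18 * (2 * u * c) := by rw [hcdef]; ring
    rw [h4]
    constructor
    · nlinarith [h1.1, Nat.zero_le (x.val * (2 * u * c))]
    · nlinarith [h1.2]

lemma blk_pow (u : ℕ) (hu : 0 < u) (j : ℕ) : Blk u (3 ^ j) (6 ^ j) := by
  induction j with
  | zero => simpa using blk_base u hu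
  | succ j ih => simpa [pow_succ, mul_comm] using blk_step u _ _ ih

/-- the blown-up graph -/
def blowUp {S : Type} (L : ℕ) [NeZero L] (r : S → S → ℕ) (hsym : ∀ s t, r s t = r t s) :
    SimpleGraph (S × Fin L) where
  Adj a b := (a.1 = b.1 ∧ a.2 ≠ b.2) ∨ (a.1 ≠ b.1 ∧ (a.2 + b.2).val < r a.1 b.1)
  symm := ⟨fun a b h => by
    rcases h with ⟨h1, h2⟩ | ⟨h1, h2⟩
    · exact Or.inl ⟨h1.symm, h2.symm⟩
    · exact Or.inr ⟨h1.symm, by rwa [add_comm, hsym]⟩⟩
  loopless := ⟨fun a h => by
    rcases h with ⟨_, h2⟩ | ⟨h1, _⟩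
    · exact h2 rfl
    · exact h1 rfl⟩

lemma card_shift (L : ℕ) [NeZero L] (i : Fin L) (q : ℕ) (hq : q ≤ L) :
    (Finset.univ.filter (fun j : Fin L => (i + j).val < q)).card = q := by
  have h1 : (Finset.univ.filter (fun j : Fin L => (i + j).val < q)).card
      = (Finset.univ.filter (fun j : Fin L => j.val < q)).card := by
    refine Finset.card_bij (fun j _ => i + j) (by simp) (by simp) ?_
    intro b hb
    exact ⟨b - i, by simpa using hb, by simp⟩
  rw [h1, Fin.card_filter_val_lt]
  omega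

lemma deg_blowUp {S : Type} [Fintype S] [DecidableEq S] (L : ℕ) [NeZero L] (r : S → S → ℕ)
    (hsym : ∀ s t, r s t = r t s) (hself : ∀ s, r s s = 0) (hle : ∀ s t, r s t ≤ L)
    (a : S × Fin L) : deg (blowUp L r hsym) a = (L - 1) + ∑ t, r a.1 t := by
  classical
  obtain ⟨s, i⟩ := a
  have h1 : deg (blowUp L r hsym) (s, i)
      = ∑ t : S, (Finset.univ.filter (fun j : Fin L => (blowUp L r hsym).Adj (s, i) (t, j))).card := by
    simp only [deg, Finset.card_filter]
    rw [← Fintype.sum_prod_type', ← Finset.card_filter, ← Set.ncard_coe_finset]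
    congr 1
    ext b
    simp
  rw [h1]
  have h2 : ∀ t : S,
      (Finset.univ.filter (fun j : Fin L => (blowUp L r hsym).Adj (s, i) (t, j))).card
        = (if s = t then L - 1 else 0) + r s t := by
    intro t
    by_cases hst : s = t
    · subst hst
      have : (Finset.univ.filter (fun j : Fin L => (blowUp L r hsym).Adj (s, i) (s, j)))
          = Finset.univ.erase i := by
        ext j
        simp [blowUp, eq_comm]
      rw [this]
      simp [hself]
    · have : (Finset.univ.filter (fun j : Fin L => (blowUp L r hsym).Adj (s, i) (t, j)))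
          = Finset.univ.filter (fun j : Fin L => (i + j).val < r s t) := by
        ext j
        simp [blowUp, hst]
      rw [this, card_shift L i _ (hle s t)]
      simp [hst]
  simp only [h2, Finset.sum_add_distrib]
  simp

lemma chain_fin {m : ℕ} (P : Fin m → Fin m → Prop)
    (htr : ∀ i j k, P i j → P j k → P i k)
    (hstep : ∀ i j : Fin m, (j : ℕ) = i + 1 → P i j) : ∀ i j : Fin m, i < j → P i j := by
  have : ∀ d : ℕ, ∀ i j : Fin m, (j : ℕ) = i + d + 1 → P i j := by
    intro d
    induction d with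
    | zero => intro i j h; exact hstep i j (by simpa using h)
    | succ d ih =>
      intro i j h
      have hj := j.isLt
      exact htr i ⟨i + d + 1, by omega⟩ j (ih _ _ rfl) (hstep _ _ (by simp; omega))
  intro i j hij
  exact this (j - i - 1) i j (by have : (i : ℕ) < j := hij; omega)

lemma exists_graph (u K1 K2 : ℕ) (hu : 0 < u) (h : Blk u K1 K2) :
    ∃ (V : Type) (_ : Fintype V) (G : SimpleGraph V), Fintype.card V = K1 * K2 * (8 * u) ∧
      (∀ m, HasDegMonoPath G m → m ≤ K1 * (8 * u)) ∧ (∀ m, HasDegMonoPath Gᶜ m → m ≤ K2) := by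
  obtain ⟨S, iF, iD, r, α, β, lo, hc, hsym, hself, hle, hα, hβ, hinj, hlab, -⟩ := h
  have : NeZero (8 * u) := ⟨by omega⟩
  have hdeg := deg_blowUp (8 * u) r hsym hself hle
  refine ⟨S × Fin (8 * u), inferInstance, blowUp (8 * u) r hsym, by simp [hc], ?_, ?_⟩
  · rintro m ⟨v, hv, hs⟩
    have h1 : ∀ i j : Fin m, i < j → ((v i).1 = (v j).1 ∨ α (v i).1 < α (v j).1) := by
      refine chain_fin (fun i j => (v i).1 = (v j).1 ∨ α (v i).1 < α (v j).1) ?_ ?_
      · rintro i j k (h1 | h1) (h2 | h2)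
        · exact Or.inl (h1.trans h2)
        · exact Or.inr (h1 ▸ h2)
        · exact Or.inr (h2 ▸ h1)
        · exact Or.inr (h1.trans h2)
      · intro i j hij
        obtain ⟨ha, hd⟩ := hs i j hij
        rw [hdeg, hdeg] at hd
        rcases ha with ⟨h1, _⟩ | ⟨h1, h2⟩
        · exact Or.inl h1
        · right
          have h3 : ∑ t, r (v i).1 t ≠ ∑ t, r (v j).1 t := fun h => h1 (hinj _ _ h)
          exact (hlab _ _ (by omega)).1 (lt_of_le_of_lt (Nat.zero_le _) h2)
    let φ : Fin m → Fin K1 × Fin (8 * u) := fun i => (⟨α (v i).1, hα _⟩, (v i).2)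
    have h2 : ∀ i j : Fin m, i < j → φ i ≠ φ j := by
      intro i j hij he
      have e1 : α (v i).1 = α (v j).1 := congrArg (fun p => (p.1 : ℕ)) he
      have e2 : (v i).2 = (v j).2 := congrArg (fun p => p.2) he
      rcases h1 i j hij with h | h
      · exact hij.ne (hv (Prod.ext h e2))
      · omega
    have hφ : Function.Injective φ := by
      intro i j he
      rcases lt_trichotomy i j with h | h | h
      · exact absurd he (h2 i j h)
      · exact h
      · exact absurd he.symm (h2 j i h)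
    simpa using Fintype.card_le_of_injective φ hφ
  · rintro m ⟨v, hv, hs⟩
    have h1 : ∀ i j : Fin m, i < j → β (v j).1 < β (v i).1 := by
      refine chain_fin (fun i j => β (v j).1 < β (v i).1) (fun i j k h1 h2 => h2.trans h1) ?_
      intro i j hij
      obtain ⟨ha, hd⟩ := hs i j hij
      have c1 := deg_compl (blowUp (8 * u) r hsym) (v i)
      have c2 := deg_compl (blowUp (8 * u) r hsym) (v j)
      rw [hdeg] at c1 c2
      obtain ⟨hne, hna⟩ := (SimpleGraph.compl_adj _ _ _).mp ha
      have h1 : (v i).1 ≠ (v j).1 := by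
        intro h
        exact hna (Or.inl ⟨h, fun h' => hne (Prod.ext h h')⟩)
      have h2 : ¬ ((v i).2 + (v j).2).val < r (v i).1 (v j).1 := fun h => hna (Or.inr ⟨h1, h⟩)
      have h3 : ∑ t, r (v i).1 t ≠ ∑ t, r (v j).1 t := fun h => h1 (hinj _ _ h)
      have h4 := ((v i).2 + (v j).2).isLt
      refine (hlab _ _ (by omega)).2 ?_
      rw [hsym]
      omega
    let φ : Fin m → Fin K2 := fun i => ⟨β (v i).1, hβ _⟩
    have hφ : Function.Injective φ := by
      intro i j he
      have e1 : β (v i).1 = β (v j).1 := congrArg Fin.val he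
      rcases lt_trichotomy i j with h | h | h
      · have := h1 i j h
        omega
      · exact h
      · have := h1 j i h
        omega
    simpa using Fintype.card_le_of_injective φ hφ

lemma deg_comap {V W : Type} (e : W ≃ V) (G : SimpleGraph V) (x : W) :
    deg (G.comap e) x = deg G (e x) := by
  have : (G.neighborSet (e x)) = e '' ((G.comap e).neighborSet x) := by
    ext y
    constructor
    · intro hy
      exact ⟨e.symm y, by simpa using hy, by simp⟩
    · rintro ⟨z, hz, rfl⟩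
      simpa using hz
  rw [deg, deg, this, Set.ncard_image_of_injective _ e.injective]

lemma HasDegMonoPath.of_comap {V W : Type} (e : W ≃ V) (G : SimpleGraph V) (m : ℕ)
    (h : HasDegMonoPath (G.comap e) m) : HasDegMonoPath G m := by
  obtain ⟨v, hv, hs⟩ := h
  refine ⟨fun i => e (v i), e.injective.comp hv, fun i j hij => ?_⟩
  obtain ⟨h1, h2⟩ := hs i j hij
  rw [deg_comap, deg_comap] at h2
  exact ⟨h1, h2⟩

lemma exists_colouring {V : Type} [Fintype V] (G : SimpleGraph V) (n m : ℕ)
    (hn : Fintype.card V = n) (h1 : ¬ HasDegMonoPath G m) (h2 : ¬ HasDegMonoPath Gᶜ m) :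
    ∃ c : Sym2 (Fin n) → Fin 2, ∀ j, ¬ HasDegMonoPath (colourClass c j) m := by
  classical
  let e : Fin n ≃ V := (Fintype.equivFinOfCardEq hn).symm
  let c : Sym2 (Fin n) → Fin 2 := fun s => if s ∈ (G.comap e).edgeSet then 0 else 1
  have h0 : colourClass c 0 = G.comap e := by
    ext x y
    simp only [colourClass, SimpleGraph.fromEdgeSet_adj, Set.mem_ofPred_eq, c,
      SimpleGraph.mem_edgeSet]
    constructor
    · rintro ⟨h, -⟩
      by_contra hc
      rw [if_neg hc] at h
      exact absurd h (by decide)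
    · intro h
      exact ⟨if_pos h, h.ne⟩
  have h0' : (G.comap e)ᶜ = Gᶜ.comap e := by
    ext x y
    simp
  refine ⟨c, fun j => ?_⟩
  fin_cases j
  · intro h
    exact h1 (HasDegMonoPath.of_comap e G m (h0 ▸ h))
  · intro h
    have h' : HasDegMonoPath (colourClass c 1) m := h
    rw [colourClass_one, h0, h0'] at h'
    exact h2 (HasDegMonoPath.of_comap e Gᶜ m h')

lemma lower (i : ℕ) : ∃ c : Sym2 (Fin ((6 ^ (i + 3)) ^ 2)) → Fin 2,
    ∀ j, ¬ HasDegMonoPath (colourClass c j) (6 ^ (i + 3) + 1) := by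
  obtain ⟨V, iV, G, hc, h1, h2⟩ :=
    exists_graph (2 ^ i) _ _ (by positivity) (blk_pow (2 ^ i) (by positivity) (i + 3))
  have e : 3 ^ (i + 3) * (8 * 2 ^ i) = 6 ^ (i + 3) := by
    rw [show (6 : ℕ) = 3 * 2 by norm_num, mul_pow]
    ring
  refine exists_colouring G _ _ ?_ (fun h => ?_) (fun h => ?_)
  · rw [hc, mul_right_comm, e, sq]
  · have := h1 _ h
    omega
  · have := h2 _ h
    omega

theorem M2_eq (i : ℕ) : M2 (6 ^ (i + 3) + 1) = (6 ^ (i + 3)) ^ 2 + 1 := by
  apply IsLeast.csInf_eq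
  refine ⟨fun n hn c => upper _ n hn c, fun M hM => ?_⟩
  by_contra hlt
  obtain ⟨c, hc⟩ := lower i
  obtain ⟨j, hj⟩ := hM ((6 ^ (i + 3)) ^ 2) (by omega) c
  exact hc j hj

end Pool.Agent.MP_a6acde_co

end MrgPart1

-- marker of a merged file
example : 731051 + 411737 = 731051 + 411737 := rfl
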